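import Pool.Agent.R552.Seg.Final

/-!
# Colouring g-segment graphs is NP-complete for every fixed g ≥ 3

The reduction is from monotone not-all-equal satisfiability, through a numerical matching problem:
three families `A`, `B`, `C` of `n` edges between vertex classes `X, Y, Z` (`A` between `X` and `Y`,
`B` between `Y` and `Z`, `C` between `X` and `Z`) are to be partitioned into `n` triangles. The edges
become chords between three blocks of the line; with auxiliary chords, three families of `n` pairwise
crossing chords, a proper colouring with `n` colours has one chord of each family in every class and
within a class the coordinates are only allowed to increase, and as the sums of the coordinates over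
the families are equal, they have to be equal. Every chord contains one of two points.
-/

namespace Pool.Agent.Results.MP_16f91c_lc.SegmentColouringNPComplete

open Pool.Agent.NPC Pool.Agent.R552.Seg

/-- **The colouring problem for `g`-segment graphs is NP-complete for every fixed `g ≥ 3`**: given a
`g`-segment chord set (a list of pairs of endpoints) and a number `k`, decide whether the circle graph
has a proper colouring with `k` colours. It is in `NP`, and `NP`-hard under polynomial-time many-one
reductions. -/
theorem result (g : ℕ) (hg : 3 ≤ g) :
    InNPP (SegmentColouring g) ∧ NPHardP (SegmentColouring g) := ⟨seg_inNPP g, seg_npHard hg⟩

end Pool.Agent.Results.MP_16f91c_lc.SegmentColouringNPComplete
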